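import Mathlib
import Pool.Agent.Lib_helper92.FFIID.Tail
import Pool.Agent.Lib_helper92.FFIID.Exist

/-!
# MP_69ceda_pr: the moments of the coding radius of finitary 3-colourings of `ℤ^d`

For every `d ≥ 2` the admissible exponents are exactly the `α < 1`: the supremum is `1` and it is
not attained.
-/

open MeasureTheory
open scoped ENNReal unitInterval

universe u

namespace Pool.Agent.Results.MP_69ceda_pr.ExactExponent

open Pool.Agent.FFIID

theorem result (d : ℕ) (hd : 2 ≤ d) :
    {α : ℝ | 0 < α ∧ ∃ F : (Site d → I) → Site d → Fin 3,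
        IsFFIIDColoring d (volume : Measure I) F ∧
          ∫⁻ y, codingRadius F y ^ α ∂(iid d (volume : Measure I)) < ⊤} = Set.Ioo 0 1 ∧
    (∃ F : (Site d → I) → Site d → Fin 3, IsFFIIDColoring d (volume : Measure I) F ∧
        ∃ N : (Site d → I) → ℕ, Measurable N ∧
          (∀ᵐ y ∂(iid d (volume : Measure I)), Determines F y (N y)) ∧
          ∀ α : ℝ, 0 < α → α < 1 →
            ∫⁻ y, ((N y : ℕ) : ℝ≥0∞) ^ α ∂(iid d (volume : Measure I)) < ⊤) ∧
    (∀ (E : Type u) [MeasurableSpace E] (ν : Measure E) [IsProbabilityMeasure ν]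
        (F : (Site d → E) → Site d → Fin 3), IsFFIIDColoring d ν F →
        ∀ α : ℝ, 1 ≤ α → ∫⁻ y, codingRadius F y ^ α ∂(iid d ν) = ⊤) := by
  refine ⟨?_, exists_coloring d, fun E _ ν _ F hF α hα => hF.moment hd hα⟩
  ext α
  simp only [Set.mem_ofPred_eq, Set.mem_Ioo]
  refine and_congr_right fun h0 => ⟨?_, ?_⟩
  · rintro ⟨F, hF, hlt⟩
    by_contra hcon
    rw [hF.moment hd (not_lt.1 hcon)] at hlt
    exact lt_irrefl _ hlt
  · intro h1
    obtain ⟨F, hF, N, hN, hdet, hmom⟩ := exists_coloring d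
    refine ⟨F, hF, lt_of_le_of_lt (lintegral_mono_ae ?_) (hmom α h0 h1)⟩
    filter_upwards [hdet] with y hy
    refine ENNReal.rpow_le_rpow ?_ h0.le
    exact iInf₂_le (N y) hy

end Pool.Agent.Results.MP_69ceda_pr.ExactExponent
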