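import Mathlib
import Pool.Agent.Lib_helper92.FFIID.Tail

/-!
# MP_69ceda_pr: every finitary 3-colouring of `ℤ^d` has `P(R > n) ≥ 1 / (398 n)` for all `n ≥ 1`

In fact no function of the labels within sup-distance `m` of the origin predicts the colour of
the origin with error probability below `1 / (398 m)`.
-/

open MeasureTheory
open scoped ENNReal

namespace Pool.Agent.Results.MP_69ceda_pr.TailLowerBound

open Pool.Agent.FFIID

theorem result (d : ℕ) (hd : 2 ≤ d) {E : Type*} [MeasurableSpace E] (ν : Measure E)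
    [IsProbabilityMeasure ν] (F : (Site d → E) → Site d → Fin 3)
    (hF : IsFFIIDColoring d ν F) :
    (∀ m : ℕ, 1 ≤ m → ∀ g : (Site d → E) → Fin 3, Measurable g → IsLocal m g →
        1 / (398 * m) ≤ iid d ν {y | F y 0 ≠ g y}) ∧
      (∀ n : ℕ, 1 ≤ n → 1 / (398 * n) ≤ iid d ν {y | (n : ℝ≥0∞) < codingRadius F y}) := by
  refine ⟨fun m hm g hg hl => ?_, fun n hn => hF.tail hd hn⟩
  have hS : Setup ν hd (fun y => F y 0) g m (iid d ν {y | F y 0 ≠ g y}) :=
    { hc := (measurable_pi_apply 0).comp hF.measurable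
      hg := hg
      hm := hm
      hloc := hl
      hq := le_rfl
      hprop := by
        filter_upwards [hF.proper] with y hy i j
        simp only [hF.color_shift]
        exact ⟨hy _ _ (adj_pt_right hd _ _), hy _ _ (adj_pt_up hd _ _)⟩ }
  have h := hS.core
  have h0 : (398 * m : ℝ≥0∞) ≠ 0 := by
    simp; omega
  have htop : (398 * m : ℝ≥0∞) ≠ ⊤ := ENNReal.mul_ne_top (by norm_num) (ENNReal.natCast_ne_top m)
  rw [ENNReal.div_le_iff h0 htop, mul_comm]
  exact h

end Pool.Agent.Results.MP_69ceda_pr.TailLowerBound
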